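import Pool.Agent.Helper65.LMD.Data
import Pool.Agent.Helper43.LM.Chk

/-!
# Project LM: kernel check of the rows 14, ..., 19 of the pair 0 of rules
-/

set_option autoImplicit false

namespace Pool.LMD

open Pool.LS Pool.LM

theorem r0_14 : chkRowP (cod tabP tabW tabV) (cod tabC tabW tabV) true 67 14 = true := by
  decide +kernel

theorem r0_15 : chkRowP (cod tabP tabW tabV) (cod tabC tabW tabV) true 67 15 = true := by
  decide +kernel

theorem r0_16 : chkRowP (cod tabP tabW tabV) (cod tabC tabW tabV) true 67 16 = true := by
  decide +kernel

theorem r0_17 : chkRowP (cod tabP tabW tabV) (cod tabC tabW tabV) true 67 17 = true := by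
  decide +kernel

theorem r0_18 : chkRowP (cod tabP tabW tabV) (cod tabC tabW tabV) true 67 18 = true := by
  decide +kernel

theorem r0_19 : chkRowP (cod tabP tabW tabV) (cod tabC tabW tabV) true 67 19 = true := by
  decide +kernel

end Pool.LMD
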