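import Pool.Agent.Helper65.LMD.Data
import Pool.Agent.Helper43.LM.Chk

/-!
# Project LM: kernel check of the rows 8, ..., 13 of the pair 1 of rules
-/

set_option autoImplicit false

namespace Pool.LMD

open Pool.LS Pool.LM

theorem r1_8 : chkRowP (cod tabB tabW tabV) (cod tabP tabW tabV) false 67 8 = true := by
  decide +kernel

theorem r1_9 : chkRowP (cod tabB tabW tabV) (cod tabP tabW tabV) false 67 9 = true := by
  decide +kernel

theorem r1_10 : chkRowP (cod tabB tabW tabV) (cod tabP tabW tabV) false 67 10 = true := by
  decide +kernel

theorem r1_11 : chkRowP (cod tabB tabW tabV) (cod tabP tabW tabV) false 67 11 = true := by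
  decide +kernel

theorem r1_12 : chkRowP (cod tabB tabW tabV) (cod tabP tabW tabV) false 67 12 = true := by
  decide +kernel

theorem r1_13 : chkRowP (cod tabB tabW tabV) (cod tabP tabW tabV) false 67 13 = true := by
  decide +kernel

end Pool.LMD
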