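import Pool.Agent.Helper65.LMD.Data
import Pool.Agent.Helper43.LM.Chk

/-!
# Project LM: kernel check of the rows 0, ..., 7 of the pair 2 of rules
-/

set_option autoImplicit false

namespace Pool.LMD

open Pool.LS Pool.LM

theorem r2_0 : chkRowP (cod tabB tabW tabV) (cod tabB tabW tabV) false 67 0 = true := by
  decide +kernel

theorem r2_1 : chkRowP (cod tabB tabW tabV) (cod tabB tabW tabV) false 67 1 = true := by
  decide +kernel

theorem r2_2 : chkRowP (cod tabB tabW tabV) (cod tabB tabW tabV) false 67 2 = true := by
  decide +kernel

theorem r2_3 : chkRowP (cod tabB tabW tabV) (cod tabB tabW tabV) false 67 3 = true := by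
  decide +kernel

theorem r2_4 : chkRowP (cod tabB tabW tabV) (cod tabB tabW tabV) false 67 4 = true := by
  decide +kernel

theorem r2_5 : chkRowP (cod tabB tabW tabV) (cod tabB tabW tabV) false 67 5 = true := by
  decide +kernel

theorem r2_6 : chkRowP (cod tabB tabW tabV) (cod tabB tabW tabV) false 67 6 = true := by
  decide +kernel

theorem r2_7 : chkRowP (cod tabB tabW tabV) (cod tabB tabW tabV) false 67 7 = true := by
  decide +kernel

end Pool.LMD
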