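import Pool.Agent.Helper43.LM.Assemble
import Pool.Agent.Helper65.LMD.R0a
import Pool.Agent.Helper65.LMD.R0b
import Pool.Agent.Helper65.LMD.R0c
import Pool.Agent.Helper65.LMD.R0d
import Pool.Agent.Helper65.LMD.R0e
import Pool.Agent.Helper65.LMD.R0f
import Pool.Agent.Helper65.LMD.R1a
import Pool.Agent.Helper65.LMD.R1b
import Pool.Agent.Helper65.LMD.R1c
import Pool.Agent.Helper65.LMD.R1d
import Pool.Agent.Helper65.LMD.R1e
import Pool.Agent.Helper65.LMD.R1f
import Pool.Agent.Helper65.LMD.R2a
import Pool.Agent.Helper65.LMD.R2b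
import Pool.Agent.Helper65.LMD.R2c
import Pool.Agent.Helper65.LMD.R2d
import Pool.Agent.Helper65.LMD.R2e
import Pool.Agent.Helper65.LMD.R2f

/-!
# Project LM: `L(5,n)` is a symmetric chain order
-/

set_option autoImplicit false

namespace Pool.LMD

open Pool.LS Pool.LM

theorem rows0 : ∀ e5 < 38, chkRowP (cod tabP tabW tabV) (cod tabC tabW tabV) true 67 e5 = true := by
  intro e5 h
  interval_cases e5
  · exact r0_0
  · exact r0_1
  · exact r0_2
  · exact r0_3
  · exact r0_4
  · exact r0_5
  · exact r0_6
  · exact r0_7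
  · exact r0_8
  · exact r0_9
  · exact r0_10
  · exact r0_11
  · exact r0_12
  · exact r0_13
  · exact r0_14
  · exact r0_15
  · exact r0_16
  · exact r0_17
  · exact r0_18
  · exact r0_19
  · exact r0_20
  · exact r0_21
  · exact r0_22
  · exact r0_23
  · exact r0_24
  · exact r0_25
  · exact r0_26
  · exact r0_27
  · exact r0_28
  · exact r0_29
  · exact r0_30
  · exact r0_31
  · exact r0_32
  · exact r0_33
  · exact r0_34
  · exact r0_35
  · exact r0_36
  · exact r0_37

theorem rows1 : ∀ e5 < 38, chkRowP (cod tabB tabW tabV) (cod tabP tabW tabV) false 67 e5 = true := by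
  intro e5 h
  interval_cases e5
  · exact r1_0
  · exact r1_1
  · exact r1_2
  · exact r1_3
  · exact r1_4
  · exact r1_5
  · exact r1_6
  · exact r1_7
  · exact r1_8
  · exact r1_9
  · exact r1_10
  · exact r1_11
  · exact r1_12
  · exact r1_13
  · exact r1_14
  · exact r1_15
  · exact r1_16
  · exact r1_17
  · exact r1_18
  · exact r1_19
  · exact r1_20
  · exact r1_21
  · exact r1_22
  · exact r1_23
  · exact r1_24
  · exact r1_25
  · exact r1_26
  · exact r1_27
  · exact r1_28
  · exact r1_29
  · exact r1_30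
  · exact r1_31
  · exact r1_32
  · exact r1_33
  · exact r1_34
  · exact r1_35
  · exact r1_36
  · exact r1_37

theorem rows2 : ∀ e5 < 38, chkRowP (cod tabB tabW tabV) (cod tabB tabW tabV) false 67 e5 = true := by
  intro e5 h
  interval_cases e5
  · exact r2_0
  · exact r2_1
  · exact r2_2
  · exact r2_3
  · exact r2_4
  · exact r2_5
  · exact r2_6
  · exact r2_7
  · exact r2_8
  · exact r2_9
  · exact r2_10
  · exact r2_11
  · exact r2_12
  · exact r2_13
  · exact r2_14
  · exact r2_15
  · exact r2_16
  · exact r2_17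
  · exact r2_18
  · exact r2_19
  · exact r2_20
  · exact r2_21
  · exact r2_22
  · exact r2_23
  · exact r2_24
  · exact r2_25
  · exact r2_26
  · exact r2_27
  · exact r2_28
  · exact r2_29
  · exact r2_30
  · exact r2_31
  · exact r2_32
  · exact r2_33
  · exact r2_34
  · exact r2_35
  · exact r2_36
  · exact r2_37

theorem chkAll : ChkAll [tabC, tabP] tabB tabW tabV := by
  intro s hs
  have hs' : s ≤ 2 := hs
  interval_cases s
  · exact rows0
  · exact rows1
  · exact rows2

/-- `L(5,n)` is a symmetric chain order. -/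
theorem sco (n : ℕ) : SCO 5 n := sco_of_rowsM [tabC, tabP] tabB tabW tabV chkAll n

end Pool.LMD
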